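import Mathlib

/-!
# Traces on generalised eigenspaces

If the traces of `S F ^ n` are transformed into the traces of `S' F ^ n` by an automorphism of `ℂ`,
then so are the traces on the generalised eigenspace of `F` for the eigenvalue one.
-/

set_option autoImplicit false
set_option linter.unusedSectionVars false

open Module Set

namespace Pool.Agent.Q290.FF

variable {V : Type*} [AddCommGroup V] [Module ℂ V] [FiniteDimensional ℂ V]

/-- the trace of `S` on the generalised eigenspace of `F` -/
noncomputable def gtr (S F : Module.End ℂ V) (hc : Commute F S) (l : ℂ) : ℂ :=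
  LinearMap.trace ℂ _ (S.restrict (F.mapsTo_maxGenEigenspace_of_comm hc l))

lemma gtr_pow (S F : Module.End ℂ V) (hc : Commute F S) (l : ℂ) (n : ℕ)
    (h : MapsTo (S * F ^ n) (F.maxGenEigenspace l) (F.maxGenEigenspace l)) :
    LinearMap.trace ℂ _ ((S * F ^ n).restrict h) = gtr S F hc l * l ^ n := by
  induction n with
  | zero =>
    have h0 : (S * F ^ 0).restrict h = S.restrict (F.mapsTo_maxGenEigenspace_of_comm hc l) := by
      apply LinearMap.ext
      intro x
      rfl
    rw [h0, pow_zero, mul_one]
    rfl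
  | succ n ih =>
    have hc2 : Commute F (S * F ^ n) := hc.mul_right (Commute.refl F |>.pow_right n)
    have h2 := F.mapsTo_maxGenEigenspace_of_comm hc2 l
    have hF := F.mapsTo_maxGenEigenspace_of_comm (Commute.refl F) l
    have hcc : Commute ((S * F ^ n).restrict h2) (F.restrict hF) :=
      LinearMap.restrict_commute hc2.symm _ _
    have hn := F.isNilpotent_restrict_maxGenEigenspace_sub_algebraMap l
    have h3 := LinearMap.trace_comp_eq_mul_of_commute_of_isNilpotent l hcc hn
    have h4 : ((S * F ^ (n + 1)).restrict h) =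
        ((S * F ^ n).restrict h2) ∘ₗ (F.restrict hF) := by
      apply LinearMap.ext
      intro x
      apply Subtype.ext
      change (S * F ^ (n + 1)) x = (S * F ^ n) (F x)
      rw [pow_succ, ← mul_assoc]
      rfl
    rw [h4, h3, ih h2, pow_succ]
    ring

/-- the finite set of the eigenvalues -/
lemma fin_eig (F : Module.End ℂ V) : {l | F.maxGenEigenspace l ≠ ⊥}.Finite :=
  WellFoundedGT.finite_ne_bot_of_iSupIndep F.independent_maxGenEigenspace

lemma trace_sum (S F : Module.End ℂ V) (hc : Commute F S) (n : ℕ) :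
    LinearMap.trace ℂ V (S * F ^ n) = ∑ l ∈ (fin_eig F).toFinset, gtr S F hc l * l ^ n := by
  classical
  have hc2 : Commute F (S * F ^ n) := hc.mul_right (Commute.refl F |>.pow_right n)
  have hds := DirectSum.isInternal_submodule_of_iSupIndep_of_iSup_eq_top
    F.independent_maxGenEigenspace (Module.End.iSup_maxGenEigenspace_eq_top F)
  rw [LinearMap.trace_eq_sum_trace_restrict' hds (fin_eig F)
    (fun l => F.mapsTo_maxGenEigenspace_of_comm hc2 l)]
  exact Finset.sum_congr rfl fun l _ => gtr_pow S F hc l n _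

lemma gtr_bot (S F : Module.End ℂ V) (hc : Commute F S) (l : ℂ)
    (h : l ∉ (fin_eig F).toFinset) : gtr S F hc l = 0 := by
  rw [Set.Finite.mem_toFinset, Set.mem_ofPred_eq, not_not] at h
  unfold gtr
  have h1 : Subsingleton (F.maxGenEigenspace l) := by
    rw [h]
    infer_instance
  have h2 : S.restrict (F.mapsTo_maxGenEigenspace_of_comm hc l) = 0 := by
    apply LinearMap.ext
    intro x
    exact Subsingleton.elim _ _
  rw [h2, map_zero]

/-- geometric sequences are linearly independent -/
lemma geom_indep (s : Finset ℂ) (c : ℂ → ℂ) (h : ∀ n : ℕ, ∑ l ∈ s, c l * l ^ n = 0) :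
    ∀ l ∈ s, c l = 0 := by
  classical
  let φ : ℂ → (Multiplicative ℕ →* ℂ) := fun l => powersHom ℂ l
  have hφ : ∀ l (n : Multiplicative ℕ), φ l n = l ^ n.toAdd := fun l n => by
    simp [φ, powersHom_apply]
  have hinj : Function.Injective φ := (powersHom ℂ).injective
  have hli := (linearIndependent_monoidHom (Multiplicative ℕ) ℂ).comp φ hinj
  rw [linearIndependent_iff'] at hli
  refine hli s c ?_
  funext n
  rw [Finset.sum_apply]
  refine Eq.trans ?_ (h n.toAdd)
  refine Finset.sum_congr rfl fun l _ => ?_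
  change c l * φ l n = _
  rw [hφ]

/-- **Transport of the traces.** -/
theorem gtr_transport (S S' F : Module.End ℂ V) (hc : Commute F S) (hc' : Commute F S')
    (τ : ℂ ≃+* ℂ) (h : ∀ n : ℕ, τ (LinearMap.trace ℂ V (S * F ^ n)) =
      LinearMap.trace ℂ V (S' * F ^ n)) :
    τ (gtr S F hc 1) = gtr S' F hc' 1 := by
  classical
  set s := (fin_eig F).toFinset with hs
  let T : Finset ℂ := s.image τ ∪ s
  have h1 : ∀ n : ℕ, ∑ l ∈ T, (τ (gtr S F hc (τ.symm l)) - gtr S' F hc' l) * l ^ n = 0 := by
    intro n
    have e1 : ∑ l ∈ T, τ (gtr S F hc (τ.symm l)) * l ^ n =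
        τ (LinearMap.trace ℂ V (S * F ^ n)) := by
      rw [trace_sum S F hc n, map_sum]
      have e2 : ∑ l ∈ s.image τ, τ (gtr S F hc (τ.symm l)) * l ^ n =
          ∑ l ∈ T, τ (gtr S F hc (τ.symm l)) * l ^ n := by
        refine Finset.sum_subset Finset.subset_union_left fun l _ hl => ?_
        have h2 : τ.symm l ∉ s := by
          intro h3
          exact hl (Finset.mem_image.mpr ⟨_, h3, by simp⟩)
        rw [gtr_bot S F hc _ h2, map_zero, zero_mul]
      rw [← e2, Finset.sum_image (fun a _ b _ hab => τ.injective hab)]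
      refine Finset.sum_congr rfl fun l _ => ?_
      rw [RingEquiv.symm_apply_apply, map_mul, map_pow]
    have e3 : ∑ l ∈ T, gtr S' F hc' l * l ^ n = LinearMap.trace ℂ V (S' * F ^ n) := by
      rw [trace_sum S' F hc' n]
      symm
      refine Finset.sum_subset Finset.subset_union_right fun l _ hl => ?_
      rw [gtr_bot S' F hc' _ hl, zero_mul]
    simp_rw [sub_mul]
    rw [Finset.sum_sub_distrib, e1, e3, h n, sub_self]
  by_cases h1T : (1 : ℂ) ∈ T
  · have h2 := geom_indep T _ h1 1 h1T
    have h3 : τ.symm 1 = 1 := map_one _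
    rw [h3] at h2
    exact sub_eq_zero.mp h2
  · have h2 : (1 : ℂ) ∉ s := fun h => h1T (Finset.mem_union_right _ h)
    rw [gtr_bot S F hc _ h2, gtr_bot S' F hc' _ h2, map_zero]

end Pool.Agent.Q290.FF
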