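import Mathlib
import Pool.Agent.Q290.FF.Lin
import Pool.Agent.Q290.Schur.RatD

/-!
# The cohomology of an abelian variety over the fields in a Galois extension of function fields

`J` is an abelian variety with a principal polarisation (a Jacobian, an elliptic curve) over a
global function field `F₀` and `F₁ / F₀` a finite Galois extension with group `G`. `Coh π` is the
cohomology of `J` over `F₁` with its known properties.
-/

set_option autoImplicit false
set_option linter.unusedSectionVars false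

open Module Representation

namespace Pool.Agent.Q290.FF

open Pool.Agent.H302R2 Pool.Agent.H302R3 Pool.Agent.H541R3.ART Pool.Agent.W446.AS
  Pool.Agent.Q7.TZ Pool.Agent.Q7.SZ Pool.Agent.Q7.GR Pool.Agent.Q290.Schur

/-- The cohomology of `J` over `F₁`. The intended meaning is: `π` is the action of the Galois group
`G` of `F₁ / F₀` on the Mordell-Weil group `P = J(F₁) ⊗ ℚ`; `V` is the first cohomology, with
coefficients in the sheaf `j_* V_ℓ(J)`, of the curve with function field `F₁` over the algebraic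
closure of the finite field, extended to `ℂ`; `σ` is the action of `G`, `F` is Frobenius, `B` is the
form given by the Weil pairing, the cup product and the trace, `kum` is the Kummer map and `ht` is
(up to a real factor) the canonical height pairing. -/
structure Coh {G : Type} [Group G] {P : Type} [AddCommGroup P] [Module ℚ P]
    (π : Representation ℚ G P) where
  V : Type
  [grp : AddCommGroup V]
  [mod : Module ℂ V]
  [fin : FiniteDimensional ℂ V]
  /-- the action of the Galois group -/
  σ : Representation ℂ G V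
  /-- Frobenius -/
  F : Module.End ℂ V
  comm : ∀ g x, F (σ g x) = σ g (F x)
  /-- the traces are rational: they are given by the Grothendieck-Lefschetz formula -/
  rat : ∀ (g : G) (n : ℕ), ∃ q : ℚ, LinearMap.trace ℂ V (σ g * F ^ n) = q
  /-- the symmetric form -/
  B : V →ₗ[ℂ] V →ₗ[ℂ] ℂ
  symm : ∀ x y, B x y = B y x
  nondeg : ∀ x, (∀ y, B x y = 0) → x = 0
  inv : ∀ g x y, B (σ g x) (σ g y) = B x y
  isom : ∀ x y, B (F x) (F y) = B x y
  /-- the Kummer map -/
  kum : P →+ V
  kum_act : ∀ g x, kum (π g x) = σ g (kum x)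
  kum_fix : ∀ x, F (kum x) = kum x
  /-- the height pairing -/
  ht : P → P → ℚ
  kum_ht : ∀ x y, B (kum x) (kum y) = (ht x y : ℂ)
  ht_pos : ∀ x, ht x x = 0 → x = 0

attribute [instance] Coh.grp Coh.mod Coh.fin

/-- a representation on a stable subspace -/
def subRep {G : Type} [Group G] {V : Type} [AddCommGroup V] [Module ℂ V]
    (σ : Representation ℂ G V) (U : Submodule ℂ V) (hU : ∀ g, ∀ x ∈ U, σ g x ∈ U) :
    Representation ℂ G U where
  toFun g := (σ g).restrict (hU g)
  map_one' := by
    apply LinearMap.ext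
    intro x
    apply Subtype.ext
    change σ 1 x = x
    rw [map_one]
    rfl
  map_mul' g h := by
    apply LinearMap.ext
    intro x
    apply Subtype.ext
    change σ (g * h) x = σ g (σ h x)
    rw [map_mul]
    rfl

section defs

variable {G : Type} [Group G] {P : Type} [AddCommGroup P] [Module ℚ P]
  {π : Representation ℚ G P} (C : Coh π)

/-- the generalised eigenspace of Frobenius for the eigenvalue one -/
noncomputable def Coh.W : Submodule ℂ C.V := C.F.maxGenEigenspace 1

lemma Coh.commute (g : G) : Commute C.F (C.σ g) := by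
  apply LinearMap.ext
  intro x
  exact C.comm g x

lemma Coh.W_act (g : G) : ∀ x ∈ C.W, C.σ g x ∈ C.W :=
  C.F.mapsTo_maxGenEigenspace_of_comm (C.commute g) 1

/-- The representation of `G` on the generalised eigenspace. The order of `L(J ⊗ χ, s)` at `s = 1` is
the multiplicity of `χ` in it. -/
noncomputable def Coh.wRep : Representation ℂ G C.W := subRep C.σ C.W C.W_act

/-- The order of the L-function of `J` over the fixed field of `H` at `s = 1`. -/
noncomputable def Coh.ord (H : Subgroup G) : ℕ := rk C.wRep H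

/-- The order minus the rank, over the fixed field of `H`. -/
noncomputable def Coh.defect (H : Subgroup G) : ℤ := (C.ord H : ℤ) - (rk π H : ℤ)

end defs

section lin

variable {G : Type} [Group G] {P : Type} [AddCommGroup P] [Module ℚ P]
  [FiniteDimensional ℚ P] {π : Representation ℚ G P} (C : Coh π)

lemma Coh.kum_rat (q : ℚ) (x : P) : C.kum (q • x) = (q : ℂ) • C.kum x := by
  have h := map_ratCast_smul C.kum ℚ ℂ q x
  simpa using h

/-- the span of the points -/
noncomputable def Coh.mw : Submodule ℂ C.V := Submodule.span ℂ (Set.range C.kum)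

/-- the orthogonal complement of the points in the generalised eigenspace -/
noncomputable def Coh.dsp : Submodule ℂ C.V where
  carrier := {x | x ∈ C.W ∧ ∀ p, C.B x (C.kum p) = 0}
  add_mem' {x y} hx hy := ⟨C.W.add_mem hx.1 hy.1, fun p => by
    rw [map_add, LinearMap.add_apply, hx.2, hy.2, add_zero]⟩
  zero_mem' := ⟨C.W.zero_mem, fun p => by rw [map_zero, LinearMap.zero_apply]⟩
  smul_mem' c x hx := ⟨C.W.smul_mem c hx.1, fun p => by
    rw [map_smul, LinearMap.smul_apply, hx.2, smul_zero]⟩

lemma Coh.mw_act (g : G) : ∀ x ∈ C.mw, C.σ g x ∈ C.mw := by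
  intro x hx
  have h1 : C.mw ≤ C.mw.comap (C.σ g) := by
    rw [Coh.mw, Submodule.span_le]
    rintro _ ⟨p, rfl⟩
    exact Submodule.subset_span ⟨π g p, C.kum_act g p⟩
  exact h1 hx

lemma Coh.mw_le : C.mw ≤ C.W := by
  rw [Coh.mw, Submodule.span_le]
  rintro _ ⟨p, rfl⟩
  change C.kum p ∈ C.F.maxGenEigenspace 1
  rw [Module.End.mem_maxGenEigenspace]
  refine ⟨1, ?_⟩
  rw [pow_one, LinearMap.sub_apply, LinearMap.smul_apply, one_smul, Module.End.one_apply,
    C.kum_fix, sub_self]

lemma Coh.orth_mw {x : C.V} (h : ∀ p, C.B x (C.kum p) = 0) : ∀ y ∈ C.mw, C.B x y = 0 := by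
  intro y hy
  have h1 : C.mw ≤ LinearMap.ker (C.B x) := by
    rw [Coh.mw, Submodule.span_le]
    rintro _ ⟨p, rfl⟩
    exact h p
  exact h1 hy

lemma Coh.dsp_act (g : G) : ∀ x ∈ C.dsp, C.σ g x ∈ C.dsp := by
  rintro x ⟨hx, hp⟩
  refine ⟨C.W_act g x hx, fun p => ?_⟩
  have h1 : C.kum p = C.σ g (C.kum (π g⁻¹ p)) := by
    rw [← C.kum_act, ← Module.End.mul_apply, ← map_mul, mul_inv_cancel, map_one,
      Module.End.one_apply]
  rw [h1, C.inv, hp]

lemma Coh.dsp_le : C.dsp ≤ C.W := fun _ h => h.1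

/-- the images of a basis -/
noncomputable def Coh.bv (i : Fin (finrank ℚ P)) : C.V := C.kum (finBasis ℚ P i)

/-- the Gram matrix -/
noncomputable def Coh.gram : Matrix (Fin (finrank ℚ P)) (Fin (finrank ℚ P)) ℚ :=
  fun i j => C.ht (finBasis ℚ P i) (finBasis ℚ P j)

lemma Coh.kum_sum (c : Fin (finrank ℚ P) → ℚ) :
    C.kum (∑ i, c i • finBasis ℚ P i) = ∑ i, (c i : ℂ) • C.bv i := by
  rw [map_sum]
  exact Finset.sum_congr rfl fun i _ => C.kum_rat _ _

lemma Coh.B_bv (i j : Fin (finrank ℚ P)) : C.B (C.bv i) (C.bv j) = (C.gram i j : ℂ) :=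
  C.kum_ht _ _

lemma Coh.gram_det : C.gram.det ≠ 0 := by
  intro hdet
  obtain ⟨c, hc0, hc⟩ := Matrix.exists_vecMul_eq_zero_iff.2 hdet
  have h1 : ∀ j, C.B (C.kum (∑ i, c i • finBasis ℚ P i)) (C.bv j) = 0 := by
    intro j
    rw [C.kum_sum, map_sum, LinearMap.sum_apply]
    have h2 := congrFun hc j
    rw [Matrix.vecMul, dotProduct, Pi.zero_apply] at h2
    have h3 : ((∑ i, c i * C.gram i j : ℚ) : ℂ) = 0 := by rw [h2, Rat.cast_zero]
    rw [← h3, Rat.cast_sum]
    refine Finset.sum_congr rfl fun i _ => ?_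
    rw [map_smul, LinearMap.smul_apply, C.B_bv, smul_eq_mul, Rat.cast_mul]
  have h2 : C.B (C.kum (∑ i, c i • finBasis ℚ P i)) (C.kum (∑ i, c i • finBasis ℚ P i)) = 0 := by
    nth_rw 2 [C.kum_sum]
    rw [map_sum]
    refine Finset.sum_eq_zero fun j _ => ?_
    rw [map_smul, h1, smul_zero]
  rw [C.kum_ht] at h2
  have h3 := C.ht_pos _ (by exact_mod_cast h2)
  apply hc0
  have h4 := Fintype.linearIndependent_iff.1 (finBasis ℚ P).linearIndependent c h3
  funext i
  exact h4 i

lemma Coh.gramC_det : (C.gram.map (algebraMap ℚ ℂ)).det ≠ 0 := by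
  rw [← RingHom.mapMatrix_apply, ← RingHom.map_det]
  exact fun h0 => C.gram_det ((map_eq_zero _).1 h0)

lemma Coh.coeff_zero {c : Fin (finrank ℚ P) → ℂ} (h : ∀ j, C.B (∑ i, c i • C.bv i) (C.bv j) = 0) :
    c = 0 := by
  by_contra hc
  apply C.gramC_det
  rw [← Matrix.exists_vecMul_eq_zero_iff]
  refine ⟨c, hc, ?_⟩
  funext j
  have h2 := h j
  rw [map_sum, LinearMap.sum_apply] at h2
  rw [Matrix.vecMul, dotProduct, Pi.zero_apply, ← h2]
  refine Finset.sum_congr rfl fun i _ => ?_
  rw [map_smul, LinearMap.smul_apply, C.B_bv, smul_eq_mul]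
  rfl

lemma Coh.bv_indep : LinearIndependent ℂ C.bv := by
  rw [Fintype.linearIndependent_iff]
  intro c hc
  have h1 := C.coeff_zero (c := c) (fun j => by rw [hc, map_zero, LinearMap.zero_apply])
  exact fun i => congrFun h1 i

lemma Coh.mw_eq : C.mw = Submodule.span ℂ (Set.range C.bv) := by
  apply le_antisymm
  · rw [Coh.mw, Submodule.span_le]
    rintro _ ⟨p, rfl⟩
    have h1 : p = ∑ i, (finBasis ℚ P).repr p i • finBasis ℚ P i := ((finBasis ℚ P).sum_repr p).symm
    rw [h1, C.kum_sum]
    exact Submodule.sum_mem _ fun i _ => Submodule.smul_mem _ _ (Submodule.subset_span ⟨i, rfl⟩)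
  · rw [Submodule.span_le]
    rintro _ ⟨i, rfl⟩
    exact Submodule.subset_span ⟨_, rfl⟩

lemma Coh.mw_dsp : Disjoint C.mw C.dsp := by
  rw [Submodule.disjoint_def]
  intro x hx hx'
  rw [C.mw_eq] at hx
  obtain ⟨c, rfl⟩ := (Submodule.mem_span_range_iff_exists_fun ℂ).mp hx
  have h1 := C.coeff_zero (c := c) (fun j => hx'.2 _)
  rw [h1]
  simp

lemma Coh.sup_eq : C.mw ⊔ C.dsp = C.W := by
  apply le_antisymm (sup_le C.mw_le C.dsp_le)
  intro x hx
  let M := C.gram.map (algebraMap ℚ ℂ)
  have hM : IsUnit M.det := isUnit_iff_ne_zero.2 C.gramC_det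
  let d : Fin (finrank ℚ P) → ℂ := fun j => C.B x (C.bv j)
  let c := Matrix.vecMul d M⁻¹
  have hc : Matrix.vecMul c M = d := by
    change Matrix.vecMul (Matrix.vecMul d M⁻¹) M = d
    rw [Matrix.vecMul_vecMul, Matrix.nonsing_inv_mul _ hM, Matrix.vecMul_one]
  have hy : ∑ i, c i • C.bv i ∈ C.mw := by
    rw [C.mw_eq]
    exact Submodule.sum_mem _ fun i _ => Submodule.smul_mem _ _ (Submodule.subset_span ⟨i, rfl⟩)
  have h1 : ∀ j, C.B (x - ∑ i, c i • C.bv i) (C.bv j) = 0 := by
    intro j
    have h2 := congrFun hc j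
    rw [Matrix.vecMul, dotProduct] at h2
    rw [map_sub, LinearMap.sub_apply, sub_eq_zero, map_sum, LinearMap.sum_apply]
    change d j = _
    rw [← h2]
    refine Finset.sum_congr rfl fun i _ => ?_
    rw [map_smul, LinearMap.smul_apply, C.B_bv, smul_eq_mul]
    rfl
  refine Submodule.mem_sup.2 ⟨_, hy, x - ∑ i, c i • C.bv i, ⟨?_, fun p => ?_⟩, by abel⟩
  · exact C.W.sub_mem hx (C.mw_le hy)
  · have h2 : p = ∑ i, (finBasis ℚ P).repr p i • finBasis ℚ P i := ((finBasis ℚ P).sum_repr p).symm
    rw [h2, C.kum_sum, map_sum]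
    refine Finset.sum_eq_zero fun j _ => ?_
    rw [map_smul, h1, smul_zero]

/-- the form is nondegenerate on the generalised eigenspace -/
lemma Coh.W_nondeg {x : C.V} (hx : x ∈ C.W) (h : ∀ y ∈ C.W, C.B x y = 0) : x = 0 := by
  obtain ⟨n, hn⟩ := Filter.eventually_atTop.mp
    (LinearMap.eventually_isCompl_ker_pow_range_pow (C.F - 1))
  have h1 : C.F.maxGenEigenspace 1 = LinearMap.ker ((C.F - 1) ^ finrank ℂ C.V) := by
    rw [Module.End.maxGenEigenspace_eq_genEigenspace_finrank, Module.End.genEigenspace_nat,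
      one_smul]
  set N := max n (finrank ℂ C.V) with hN
  have h2 : C.W = LinearMap.ker ((C.F - 1) ^ N) := by
    rw [Coh.W, h1, Module.End.ker_pow_eq_ker_pow_finrank_of_le (le_max_right _ _)]
  have h3 := hn N (le_max_left _ _)
  have key : ∀ (m : ℕ) (a b : C.V), ((C.F - 1) ^ m : Module.End ℂ C.V) a = 0 →
      C.B a (((C.F - 1) ^ m : Module.End ℂ C.V) b) = 0 := by
    intro m
    induction m with
    | zero =>
      intro a b ha
      have ha' : a = 0 := ha
      rw [ha', map_zero, LinearMap.zero_apply]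
    | succ m ih =>
      intro a b ha
      have h4 : ∀ y, C.B a ((C.F - 1) y) = - C.B ((C.F - 1) a) (C.F y) := by
        intro y
        simp only [LinearMap.sub_apply, Module.End.one_apply, map_sub]
        rw [C.isom]
        ring
      rw [pow_succ', Module.End.mul_apply, h4]
      have h5 : C.F (((C.F - 1) ^ m : Module.End ℂ C.V) b) =
          ((C.F - 1) ^ m : Module.End ℂ C.V) (C.F b) := by
        have h6 : Commute C.F ((C.F - 1) ^ m) :=
          ((Commute.refl C.F).sub_right (Commute.one_right _)).pow_right m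
        exact LinearMap.congr_fun h6 b
      rw [h5, ih _ _ ?_, neg_zero]
      rw [pow_succ, Module.End.mul_apply] at ha
      exact ha
  apply C.nondeg
  intro y
  have h4 : y ∈ LinearMap.ker ((C.F - 1) ^ N) ⊔ LinearMap.range ((C.F - 1) ^ N) := by
    rw [h3.sup_eq_top]
    exact Submodule.mem_top
  obtain ⟨u, hu, _, ⟨v, rfl⟩, rfl⟩ := Submodule.mem_sup.1 h4
  rw [map_add, h u (h2 ▸ hu), zero_add]
  apply key
  rw [h2] at hx
  exact hx

/-- the form is nondegenerate on the complement -/
lemma Coh.dsp_nondeg {x : C.V} (hx : x ∈ C.dsp) (h : ∀ y ∈ C.dsp, C.B x y = 0) : x = 0 := by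
  refine C.W_nondeg hx.1 fun y hy => ?_
  rw [← C.sup_eq] at hy
  obtain ⟨a, ha, b, hb, rfl⟩ := Submodule.mem_sup.1 hy
  rw [map_add, C.orth_mw hx.2 a ha, h b hb, add_zero]

end lin

end Pool.Agent.Q290.FF
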