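import Mathlib
import Pool.Agent.Q290.FF.Coh
import Pool.Agent.Q7.GR.Min

/-!
# The characters of the cohomology
-/

set_option autoImplicit false
set_option linter.unusedSectionVars false

open Module Representation

namespace Pool.Agent.Q290.FF

open Pool.Agent.H302R2 Pool.Agent.H302R3 Pool.Agent.H541R3.ART Pool.Agent.W446.AS
  Pool.Agent.Q7.TZ Pool.Agent.Q7.SZ Pool.Agent.Q7.GR Pool.Agent.Q290.Schur

section trace

variable {V : Type*} [AddCommGroup V] [Module ℂ V] [FiniteDimensional ℂ V]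

lemma trace_sup {U₁ U₂ W : Submodule ℂ V} (hd : Disjoint U₁ U₂) (hs : U₁ ⊔ U₂ = W)
    (T : Module.End ℂ V) (h₁ : ∀ x ∈ U₁, T x ∈ U₁) (h₂ : ∀ x ∈ U₂, T x ∈ U₂)
    (hW : ∀ x ∈ W, T x ∈ W) :
    LinearMap.trace ℂ W (T.restrict hW) =
      LinearMap.trace ℂ U₁ (T.restrict h₁) + LinearMap.trace ℂ U₂ (T.restrict h₂) := by
  have hU₁ : U₁ ≤ W := hs ▸ le_sup_left
  have hU₂ : U₂ ≤ W := hs ▸ le_sup_right
  let f : (U₁ × U₂) →ₗ[ℂ] W :=
    (Submodule.inclusion hU₁).coprod (Submodule.inclusion hU₂)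
  have hf : ∀ x, ((f x : W) : V) = x.1 + x.2 := fun x => by simp [f]
  have hbij : Function.Bijective f := by
    constructor
    · rw [← LinearMap.ker_eq_bot, LinearMap.ker_eq_bot']
      intro x hx
      have h1 : (x.1 : V) + x.2 = 0 := by rw [← hf, hx]; rfl
      have h2 : (x.1 : V) = 0 := by
        apply Submodule.disjoint_def.1 hd _ x.1.2
        have h3 : (x.1 : V) = -x.2 := eq_neg_of_add_eq_zero_left h1
        rw [h3]
        exact U₂.neg_mem x.2.2
      have h3 : (x.2 : V) = 0 := by rw [h2, zero_add] at h1; exact h1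
      exact Prod.ext (Subtype.ext h2) (Subtype.ext h3)
    · rintro ⟨w, hw⟩
      have hw' := hw
      rw [← hs] at hw'
      obtain ⟨a, ha, b, hb, hab⟩ := Submodule.mem_sup.1 hw'
      exact ⟨(⟨a, ha⟩, ⟨b, hb⟩), Subtype.ext (by rw [hf]; exact hab)⟩
  let e := LinearEquiv.ofBijective f hbij
  have h := LinearMap.trace_conj' ((T.restrict h₁).prodMap (T.restrict h₂)) e
  rw [LinearMap.trace_prodMap'] at h
  rw [← h]
  congr 1
  apply LinearMap.ext
  intro w
  obtain ⟨x, rfl⟩ := e.surjective w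
  apply Subtype.ext
  rw [LinearEquiv.conj_apply_apply, LinearEquiv.symm_apply_apply]
  change T (f x) = ((f _ : W) : V)
  rw [hf, hf, map_add]
  rfl

end trace

/-- Galois conjugation of the values -/
lemma tau_val {G : Type} [Group G] [Finite G] {f : G → ℂ} (hf : IsSolHeilbronn f) {k : ℕ}
    {τ : ℂ ≃+* ℂ} (hτ : ∀ z : ℂ, z ^ Nat.card G = 1 → τ z = z ^ k) (g : G) :
    τ (f g) = f (g ^ k) := by
  obtain ⟨ι, hι, ψ, n, hn⟩ := (hf.zp g).comm_decomp (zpowers_comm g)
  have e1 := hn ⟨g, Subgroup.mem_zpowers g⟩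
  have e2 := hn ⟨g ^ k, Subgroup.npow_mem_zpowers g k⟩
  simp only at e1 e2
  rw [e1, e2, map_sum]
  refine Finset.sum_congr rfl fun i _ => ?_
  rw [map_mul, map_natCast, hτ]
  · congr 1
    rw [show (⟨g ^ k, Subgroup.npow_mem_zpowers g k⟩ : Subgroup.zpowers g) =
      ⟨g, Subgroup.mem_zpowers g⟩ ^ k from rfl, map_pow]
    rfl
  · rw [← Units.val_pow_eq_pow_val, ← map_pow]
    have h3 : (⟨g, Subgroup.mem_zpowers g⟩ : Subgroup.zpowers g) ^ Nat.card G = 1 := by
      apply Subtype.ext
      change g ^ Nat.card G = 1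
      exact pow_card_eq_one'
    rw [h3, map_one, Units.val_one]

section char

variable {G : Type} [Group G] [Finite G] {P : Type} [AddCommGroup P] [Module ℚ P]
  [FiniteDimensional ℚ P] {π : Representation ℚ G P} (C : Coh π)

/-- the representation on the span of the points -/
noncomputable def Coh.mRep : Representation ℂ G C.mw := subRep C.σ C.mw C.mw_act

/-- the representation on the complement -/
noncomputable def Coh.dRep : Representation ℂ G C.dsp := subRep C.σ C.dsp C.dsp_act

lemma Coh.mRep_char : C.mRep.character = qtr π := by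
  classical
  funext g
  change LinearMap.trace ℂ C.mw ((C.σ g).restrict (C.mw_act g)) =
    ((LinearMap.trace ℚ P (π g) : ℚ) : ℂ)
  let b₀ := Basis.span C.bv_indep
  let e : Submodule.span ℂ (Set.range C.bv) ≃ₗ[ℂ] C.mw := LinearEquiv.ofEq _ _ C.mw_eq.symm
  let b := b₀.map e
  have hb : ∀ i, ((b i : C.mw) : C.V) = C.bv i := by
    intro i
    change ((e (b₀ i) : C.mw) : C.V) = _
    rw [LinearEquiv.coe_ofEq_apply]
    exact congrArg Subtype.val (Basis.span_apply C.bv_indep i)
  rw [LinearMap.trace_eq_matrix_trace ℂ b, LinearMap.trace_eq_matrix_trace ℚ (finBasis ℚ P)]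
  have h1 : LinearMap.toMatrix b b ((C.σ g).restrict (C.mw_act g)) =
      (LinearMap.toMatrix (finBasis ℚ P) (finBasis ℚ P) (π g)).map (algebraMap ℚ ℂ) := by
    ext i j
    rw [LinearMap.toMatrix_apply, Matrix.map_apply, LinearMap.toMatrix_apply]
    have h2 : (C.σ g).restrict (C.mw_act g) (b j) =
        ∑ i, ((finBasis ℚ P).repr (π g (finBasis ℚ P j)) i : ℂ) • b i := by
      apply Subtype.ext
      change C.σ g (b j : C.mw) = _
      rw [hb, Coh.bv, ← C.kum_act]
      nth_rw 1 [← (finBasis ℚ P).sum_repr (π g (finBasis ℚ P j))]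
      rw [C.kum_sum, Submodule.coe_sum]
      refine Finset.sum_congr rfl fun i _ => ?_
      rw [Submodule.coe_smul, hb]
    rw [h2, map_sum, Finsupp.finsetSum_apply, Finset.sum_eq_single i]
    · rw [map_smul, Finsupp.smul_apply, b.repr_self, Finsupp.single_eq_same, smul_eq_mul, mul_one]
      rfl
    · intro l _ hl
      rw [map_smul, Finsupp.smul_apply, b.repr_self, Finsupp.single_eq_of_ne hl.symm, smul_zero]
    · intro h
      exact absurd (Finset.mem_univ i) h
  rw [h1]
  simp [Matrix.trace]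

lemma Coh.char_add : C.wRep.character = fun g => qtr π g + C.dRep.character g := by
  funext g
  rw [← C.mRep_char]
  exact trace_sup C.mw_dsp C.sup_eq (C.σ g) (C.mw_act g) (C.dsp_act g) (C.W_act g)

/-- **The character of the generalised eigenspace is invariant under the power maps.** -/
theorem Coh.w_pow (g : G) (k : ℕ) (hk : k.Coprime (Nat.card G)) :
    C.wRep.character (g ^ k) = C.wRep.character g := by
  obtain ⟨τ, hτ⟩ := exists_sigma (N := Nat.card G) Nat.card_pos hk
  have h1 : τ (C.wRep.character g) = C.wRep.character g := by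
    refine gtr_transport (C.σ g) (C.σ g) C.F (C.commute g) (C.commute g) τ fun n => ?_
    obtain ⟨q, hq⟩ := C.rat g n
    rw [hq, map_ratCast]
  rw [← tau_val (Pool.Agent.Y788.rep_heilbronn C.wRep).toSol hτ g, h1]

theorem Coh.w_pow' (g : G) (k : ℕ) (hk : k.Coprime (orderOf g)) :
    C.wRep.character (g ^ k) = C.wRep.character g :=
  pow_inv_of (fun g k hk => C.w_pow g k hk) g k hk

theorem Coh.w_rat (g : G) : ∃ q : ℚ, C.wRep.character g = q :=
  rat_val (char_virt _) (fun g k hk => C.w_pow' g k hk) g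

/-- the character of the complement is invariant under the power maps -/
theorem Coh.d_pow (g : G) (k : ℕ) (hk : k.Coprime (Nat.card G)) :
    C.dRep.character (g ^ k) = C.dRep.character g := by
  have h1 := C.w_pow g k hk
  have h2 : qtr π (g ^ k) = qtr π g := by
    obtain ⟨τ, hτ⟩ := exists_sigma (N := Nat.card G) Nat.card_pos hk
    rw [← tau_val (qtr_heilbronn π).toSol hτ g]
    unfold qtr
    rw [map_ratCast]
  rw [C.char_add] at h1
  simp only at h1
  rw [h2] at h1
  exact add_left_cancel h1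

theorem Coh.d_pow' (g : G) (k : ℕ) (hk : k.Coprime (orderOf g)) :
    C.dRep.character (g ^ k) = C.dRep.character g :=
  pow_inv_of (fun g k hk => C.d_pow g k hk) g k hk

lemma inv_of_pow {f : G → ℂ} (h : ∀ (g : G) (k : ℕ), k.Coprime (Nat.card G) → f (g ^ k) = f g)
    (g : G) : f g⁻¹ = f g := by
  have h1 : g⁻¹ = g ^ (Nat.card G - 1) := by
    have h2 : g ^ (Nat.card G - 1) * g = 1 := by
      rw [← pow_succ, Nat.sub_add_cancel Nat.card_pos, pow_card_eq_one']
    exact (eq_inv_of_mul_eq_one_left h2).symm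
  rw [h1]
  apply h
  obtain ⟨m, hm⟩ := Nat.exists_eq_succ_of_ne_zero (Nat.card_pos (α := G)).ne'
  rw [hm, Nat.succ_sub_one, Nat.succ_eq_add_one]
  simp

/-- **The complement is orthogonal.** -/
theorem Coh.d_orth : OrthRep C.dRep.character := by
  refine ⟨C.dsp, inferInstance, inferInstance, inferInstance, C.dRep,
    (C.B.comp C.dsp.subtype).compl₂ C.dsp.subtype |>.comp LinearMap.id, rfl,
    fun v w => C.symm _ _, fun g v w => C.inv g _ _, fun v hv => ?_,
    fun g => inv_of_pow C.d_pow g⟩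
  exact Subtype.ext (C.dsp_nondeg v.2 fun y hy => hv ⟨y, hy⟩)

end char

end Pool.Agent.Q290.FF
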