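import Mathlib
import Pool.Agent.Q290.FF.Char

/-!
# Sums over groups of prime power order, and the index of the kernel in degree two
-/

set_option autoImplicit false
set_option linter.unusedSectionVars false

open Module Representation

namespace Pool.Agent.Q290.FF

open Pool.Agent.H302R2 Pool.Agent.H302R3 Pool.Agent.H541R3.ART Pool.Agent.W446.AS
  Pool.Agent.Q7.TZ Pool.Agent.Q7.SZ Pool.Agent.Q7.GR Pool.Agent.Q290.Schur

section psum

variable {H : Type} [Group H] [Finite H]

/-- the number of the generators of a cyclic subgroup -/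
lemma card_gen [Fintype H] (a : H)
    [DecidablePred (fun g : H => Subgroup.zpowers g = Subgroup.zpowers a)] :
    (Finset.univ.filter (fun g : H => Subgroup.zpowers g = Subgroup.zpowers a)).card =
      (orderOf a).totient := by
  classical
  have : Fintype (Subgroup.zpowers a) := Fintype.ofFinite _
  have hcard : Fintype.card (Subgroup.zpowers a) = orderOf a := by
    rw [← Nat.card_eq_fintype_card, Nat.card_zpowers]
  have h1 := IsCyclic.card_orderOf_eq_totient (α := Subgroup.zpowers a) (d := orderOf a)
    (by rw [hcard])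
  rw [← h1]
  refine Finset.card_bij (fun g hg => ⟨g, ?_⟩) ?_ ?_ ?_
  · rw [← (Finset.mem_filter.mp hg).2]
    exact Subgroup.mem_zpowers g
  · intro g hg
    rw [Finset.mem_filter]
    refine ⟨Finset.mem_univ _, ?_⟩
    rw [Subgroup.orderOf_mk, ← Nat.card_zpowers, (Finset.mem_filter.mp hg).2, Nat.card_zpowers]
  · intro g hg g' hg' h
    exact congrArg Subtype.val h
  · rintro ⟨x, hx⟩ hx'
    have h2 := (Finset.mem_filter.mp hx').2
    rw [Subgroup.orderOf_mk] at h2
    refine ⟨x, ?_, rfl⟩
    rw [Finset.mem_filter]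
    refine ⟨Finset.mem_univ _, ?_⟩
    have h3 : Subgroup.zpowers x ≤ Subgroup.zpowers a := Subgroup.zpowers_le.mpr hx
    apply Subgroup.eq_of_le_of_card_ge h3
    rw [Nat.card_zpowers, Nat.card_zpowers, h2]

/-- a power of an element with the same span -/
lemma pow_of_zpowers {a g : H} (h : Subgroup.zpowers g = Subgroup.zpowers a) :
    ∃ k : ℕ, k.Coprime (orderOf a) ∧ g = a ^ k := by
  have hg : g ∈ Subgroup.zpowers a := by
    rw [← h]
    exact Subgroup.mem_zpowers g
  obtain ⟨k, hk⟩ := (mem_powers_iff_mem_zpowers.mpr hg : g ∈ Submonoid.powers a)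
  have hk' : a ^ k = g := hk
  refine ⟨k, ?_, hk'.symm⟩
  have h1 : orderOf g = orderOf a := by
    rw [← Nat.card_zpowers, h, Nat.card_zpowers]
  rw [← hk', orderOf_pow] at h1
  have h2 := Nat.div_eq_self.mp h1
  rcases h2 with h2 | h2
  · exact absurd h2 (orderOf_pos a).ne'
  · rw [Nat.Coprime, Nat.gcd_comm]
    exact h2

theorem pgroup_sum [Fintype H] {p : ℕ} (hp : p.Prime) (hH : IsPGroup p H) (F : H → ℤ)
    (hpow : ∀ (g : H) (k : ℕ), k.Coprime (orderOf g) → F (g ^ k) = F g) :
    ((p : ℤ) - 1) ∣ ∑ g : H, F g - F 1 := by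
  classical
  have : Fact p.Prime := ⟨hp⟩
  have h1 : ∑ g : H, F g - F 1 = ∑ g ∈ Finset.univ.erase 1, F g := by
    rw [← Finset.add_sum_erase Finset.univ F (Finset.mem_univ 1)]
    ring
  rw [h1, ← Finset.sum_fiberwise_of_maps_to (s := Finset.univ.erase (1 : H))
    (t := (Finset.univ.erase (1 : H)).image (fun g : H => Subgroup.zpowers g))
    (g := fun g : H => Subgroup.zpowers g) (fun g hg => Finset.mem_image_of_mem _ hg)]
  refine Finset.dvd_sum fun C hC => ?_
  obtain ⟨a, ha, rfl⟩ := Finset.mem_image.mp hC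
  have ha1 : a ≠ 1 := (Finset.mem_erase.mp ha).1
  have h2 : ((Finset.univ.erase (1 : H)).filter
      (fun g : H => Subgroup.zpowers g = Subgroup.zpowers a)) =
      Finset.univ.filter (fun g : H => Subgroup.zpowers g = Subgroup.zpowers a) := by
    ext g
    simp only [Finset.mem_filter, Finset.mem_erase, Finset.mem_univ, and_true, true_and,
      and_iff_right_iff_imp]
    intro h hg
    rw [hg, Subgroup.zpowers_one_eq_bot] at h
    exact ha1 (Subgroup.zpowers_eq_bot.mp h.symm)
  rw [h2, Finset.sum_congr rfl (g := fun _ => F a), Finset.sum_const, card_gen, nsmul_eq_mul]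
  · obtain ⟨K, hK⟩ := (IsPGroup.iff_orderOf.mp hH) a
    have hK0 : K ≠ 0 := by
      rintro rfl
      rw [pow_zero, orderOf_eq_one_iff] at hK
      exact ha1 hK
    rw [hK, Nat.totient_prime_pow hp (Nat.pos_of_ne_zero hK0)]
    refine Dvd.dvd.mul_right ?_ _
    have h3 : ((p - 1 : ℕ) : ℤ) = (p : ℤ) - 1 := by
      rw [Nat.cast_sub hp.one_le]
      simp
    rw [Nat.cast_mul, h3]
    exact Dvd.intro_left _ rfl
  · intro g hg
    obtain ⟨k, hk, rfl⟩ := pow_of_zpowers (Finset.mem_filter.mp hg).2
    exact hpow a k hk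

end psum

section two

variable {G : Type} [Group G] [Finite G]

/-- the character sums to the dimension of the invariants -/
lemma rk_char {V : Type} [AddCommGroup V] [Module ℂ V] [FiniteDimensional ℂ V]
    (ρ : Representation ℂ G V) (H : Subgroup G) [Fintype H] :
    ∑ h : H, ρ.character (h : G) = (rk ρ H : ℂ) * Nat.card H := by
  have hH : (Nat.card H : ℂ) ≠ 0 := card_ne
  have : Invertible (Nat.card H : ℂ) := invertibleOfNonzero hH
  have h1 := Representation.card_inv_mul_sum_char_eq_finrank (ρ.comp H.subtype)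
  unfold rk
  rw [← h1]
  field_simp
  rfl

/-- degree two: the index of the kernel is at most twelve -/
theorem index_two' {n : (G → ℂ) → ℤ} (hS : IsSolHeilbronn (theta n : G → ℂ))
    (h1 : (theta n : G → ℂ) 1 = 2) (hreal : ∀ g : G, theta n g⁻¹ = theta n g)
    (hev : ∀ χ ∈ Irr G, Sy χ → Even (n χ))
    (hpow : ∀ (g : G) (k : ℕ), k.Coprime (orderOf g) →
      (theta n : G → ℂ) (g ^ k) = theta n g) :
    (KerS (theta n : G → ℂ)).index ≤ 12 := by
  classical
  have hquad : ∀ μ : G →* ℂˣ, μ * μ = 1 → μ.ker.index ≤ 2 := fun μ h => index_ker_le μ h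
  rcases central_frame n hS h1 hreal hev with
    ⟨μ, ν, hμ, hν, -, hc⟩ | ⟨B, l, hB, -, hl, -, hc⟩
  · have hle : μ.ker ⊓ ν.ker ≤ KerS (theta n : G → ℂ) := by
      intro x hx
      rw [mem_kerS]
      intro χ hχ hp
      rw [pr_theta n hχ] at hp
      have hp' : n χ ≠ 0 := by
        intro h
        rw [h] at hp
        exact hp (by simp)
      have hx1 : μ x = 1 := MonoidHom.mem_ker.mp hx.1
      have hx2 : ν x = 1 := MonoidHom.mem_ker.mp hx.2
      rcases hc χ hχ hp' with h | h
      · rw [h]
        simp [hx1]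
      · rw [h]
        simp [hx2]
    have h2 := Nat.le_of_dvd (Nat.pos_of_ne_zero Subgroup.index_ne_zero_of_finite)
      (Subgroup.index_dvd_of_le hle)
    have h3 : (μ.ker ⊓ ν.ker).index ≤ μ.ker.index * ν.ker.index := Subgroup.index_inf_le
    have h4 := hquad μ hμ
    have h5 := hquad ν hν
    have h6 : μ.ker.index * ν.ker.index ≤ 2 * 2 := Nat.mul_le_mul h4 h5
    omega
  · have hle : l.ker.map B.subtype ≤ KerS (theta n : G → ℂ) := by
      rintro x ⟨b, hb, rfl⟩
      rw [mem_kerS]
      intro χ hχ hp
      rw [pr_theta n hχ] at hp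
      have hp' : n χ ≠ 0 := by
        intro h
        rw [h] at hp
        exact hp (by simp)
      exact hc χ hχ hp' b (MonoidHom.mem_ker.mp hb)
    have hindex : (l.ker.map B.subtype).index = l.ker.index * B.index := by
      rw [Subgroup.index_map_subtype]
    have : Finite l.range := Finite.of_surjective _ l.rangeRestrict_surjective
    have hcyc : IsCyclic l.range := inferInstance
    obtain ⟨⟨u, hu⟩, hgen⟩ := hcyc.exists_generator
    obtain ⟨b, hb⟩ := hu
    set m := orderOf (⟨u, ⟨b, hb⟩⟩ : l.range) with hm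
    have hcard : Nat.card l.range = m := (orderOf_eq_card_of_forall_mem_zpowers hgen).symm
    have hmpos : 0 < m := orderOf_pos _
    have hpw : ∀ d : ℕ, l b ^ d = 1 ↔ m ∣ d := by
      intro d
      rw [hm, orderOf_dvd_iff_pow_eq_one, hb]
      constructor
      · intro h; exact Subtype.ext h
      · intro h; exact congrArg Subtype.val h
    have hmb : m ∣ orderOf (b : G) := by
      rw [← hpw, ← map_pow]
      have h2 : b ^ orderOf (b : G) = 1 := by
        rw [Subgroup.orderOf_coe, pow_orderOf_eq_one]
      rw [h2, map_one]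
    have hunit : ∀ w : (ZMod m)ˣ, w = 1 ∨ w = -1 := by
      intro w
      have hne : NeZero (orderOf (b : G)) := ⟨(orderOf_pos _).ne'⟩
      obtain ⟨v, hv⟩ := ZMod.unitsMap_surjective hmb w
      set k := (v : ZMod (orderOf (b : G))).val with hk
      have hcop : k.Coprime (orderOf (b : G)) := ZMod.val_coe_unit_coprime v
      have hkw : (k : ZMod m) = (w : ZMod m) := by
        rw [← hv, ZMod.unitsMap_val, hk]
        exact (ZMod.natCast_val _)
      have h2 := hpow (b : G) k hcop
      have h3 : (theta n : G → ℂ) ((b : G) ^ k) =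
          ((l b ^ k : ℂˣ) : ℂ) + (((l b ^ k)⁻¹ : ℂˣ) : ℂ) := by
        have := hl (b ^ k)
        rw [map_pow] at this
        exact this
      rw [h3, hl b] at h2
      set z : ℂˣ := l b with hz
      have h4 : (((z ^ k : ℂˣ) : ℂ) - z) * (((z ^ k : ℂˣ) : ℂ) - ((z⁻¹ : ℂˣ) : ℂ)) = 0 := by
        have e1 : ((z ^ k : ℂˣ) : ℂ) * (((z ^ k)⁻¹ : ℂˣ) : ℂ) = 1 := by
          rw [← Units.val_mul, mul_inv_cancel, Units.val_one]
        have e2 : ((z : ℂˣ) : ℂ) * ((z⁻¹ : ℂˣ) : ℂ) = 1 := by
          rw [← Units.val_mul, mul_inv_cancel, Units.val_one]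
        linear_combination ((z ^ k : ℂˣ) : ℂ) * h2 - e1 + e2
      rcases mul_eq_zero.mp h4 with h5 | h5
      · left
        have h6 : z ^ k = z := Units.ext (sub_eq_zero.mp h5)
        have hkpos : 1 ≤ k ∨ m = 1 := by
          rcases Nat.eq_zero_or_pos k with h | h
          · right
            rw [h] at h6
            have h7 : l b ^ 1 = 1 := by rw [pow_one, ← hz, ← h6, pow_zero]
            exact Nat.dvd_one.mp ((hpw 1).mp h7)
          · left; exact h
        rcases hkpos with h | h
        · have h7 : l b ^ (k - 1) = 1 := by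
            rw [← hz]
            have : z ^ (k - 1) * z = z := by rw [← pow_succ, Nat.sub_add_cancel h, h6]
            exact mul_eq_right.mp this
          have h8 := (hpw _).mp h7
          apply Units.ext
          rw [← hkw, Units.val_one]
          have h9 : ((k - 1 : ℕ) : ZMod m) = 0 := (ZMod.natCast_eq_zero_iff _ _).mpr h8
          rw [Nat.cast_sub h, sub_eq_zero] at h9
          simpa using h9
        · have : Subsingleton (ZMod m) := by
            rw [h]
            infer_instance
          exact Units.ext (Subsingleton.elim _ _)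
      · right
        have h6 : z ^ k = z⁻¹ := Units.ext (sub_eq_zero.mp h5)
        have h7 : l b ^ (k + 1) = 1 := by
          rw [← hz, pow_succ, h6, inv_mul_cancel]
        have h8 := (hpw _).mp h7
        apply Units.ext
        rw [← hkw, Units.val_neg, Units.val_one, eq_neg_iff_add_eq_zero]
        have h9 : ((k + 1 : ℕ) : ZMod m) = 0 := (ZMod.natCast_eq_zero_iff _ _).mpr h8
        push_cast at h9
        exact h9
    have htot : Nat.totient m ≤ 2 := by
      have hne : NeZero m := ⟨hmpos.ne'⟩
      rw [← ZMod.card_units_eq_totient m]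
      have h2 : (Finset.univ : Finset (ZMod m)ˣ) ⊆ {1, -1} := by
        intro w _
        rcases hunit w with h | h <;> simp [h]
      have h3 := Finset.card_le_card h2
      rw [Finset.card_univ] at h3
      exact h3.trans Finset.card_le_two
    have hm6 : m ≤ 6 := by
      rcases mem_of_totient_le_two hmpos htot with h | h | h | h | h <;> omega
    have h2 := Nat.le_of_dvd (Nat.pos_of_ne_zero Subgroup.index_ne_zero_of_finite)
      (Subgroup.index_dvd_of_le hle)
    rw [hindex, Subgroup.index_ker, hcard] at h2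
    have h6 : m * B.index ≤ 6 * 2 := Nat.mul_le_mul hm6 hB
    omega

end two

end Pool.Agent.Q290.FF
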