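import Mathlib
import Pool.Agent.Q290.FF.PSum
import Pool.Agent.Q290.Schur.MinkC
import Pool.Agent.Q290.Schur.Par

/-!
# The defect representation
-/

set_option autoImplicit false
set_option linter.unusedSectionVars false

open Module Representation

namespace Pool.Agent.Q290.FF

open Pool.Agent.H302R2 Pool.Agent.H302R3 Pool.Agent.H541R3.ART Pool.Agent.W446.AS
  Pool.Agent.Q7.TZ Pool.Agent.Q7.SZ Pool.Agent.Q7.GR Pool.Agent.Q290.Schur Pool.Agent.Y788 Pool.Agent.Y788.V

variable {G : Type} [Group G] [Finite G] {P : Type} [AddCommGroup P] [Module ℚ P]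
  [FiniteDimensional ℚ P] {π : Representation ℚ G P} (C : Coh π)

/-- the defect is the dimension of the invariants of the complement -/
theorem Coh.defect_eq (H : Subgroup G) : C.defect H = rk C.dRep H := by
  classical
  have : Fintype H := Fintype.ofFinite H
  have hH : (Nat.card H : ℂ) ≠ 0 := card_ne
  have h1 := rk_char C.wRep H
  have h2 := rk_char C.dRep H
  have h3 := qtr_sum π H
  rw [finsum_eq_sum_of_fintype] at h3
  rw [C.char_add, Finset.sum_add_distrib, h2, h3, ← add_mul] at h1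
  have h4 := mul_right_cancel₀ hH h1
  have h5 : (rk π H : ℤ) + rk C.dRep H = rk C.wRep H := by exact_mod_cast h4
  unfold Coh.defect Coh.ord
  omega

/-- the multiplicities in the complement -/
theorem Coh.d_mult : ∃ n : (G → ℂ) → ℤ, (∀ χ ∈ Irr G, 0 ≤ n χ) ∧
    (theta n : G → ℂ) = C.dRep.character ∧ (∀ χ ∈ Irr G, n (fun g => χ g⁻¹) = n χ) ∧
    (∀ χ ∈ Irr G, Sy χ → Even (n χ)) := by
  classical
  have : Fintype G := Fintype.ofFinite G
  obtain ⟨n, hn, hpr⟩ := virt_theta (char_virt C.dRep)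
  refine ⟨n, fun χ hχ => ?_, hn.symm, fun χ hχ => ?_, fun χ hχ hs => ?_⟩
  · obtain ⟨m, hm⟩ := pr_nat C.dRep hχ
    have h1 := hpr χ hχ
    rw [hm] at h1
    have h2 : (m : ℤ) = n χ := by exact_mod_cast h1
    rw [← h2]
    positivity
  · refine n_conj n (fun g => ?_) hχ
    rw [← hn]
    exact inv_of_pow C.d_pow g
  · obtain ⟨k, hk⟩ := even_pairing C.d_orth (symp_rep hχ hs)
    rw [finsum_eq_sum_of_fintype, hn] at hk
    have h1 := theta_pair n hχ
    have h2 : ∑ g : G, (theta n : G → ℂ) g * χ g⁻¹ = ∑ g : G, (theta n : G → ℂ) g * χ g :=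
      Finset.sum_congr rfl fun g _ => by rw [hs.1]
    rw [h2, hk] at h1
    have h3 : (Nat.card G : ℂ) ≠ 0 := card_ne
    have h4 : ((2 * k : ℕ) : ℂ) = (n χ : ℂ) := by
      push_cast
      exact mul_right_cancel₀ h3 h1
    have h5 : ((2 * k : ℕ) : ℤ) = n χ := by exact_mod_cast h4
    rw [← h5]
    exact ⟨k, by push_cast; ring⟩

/-- the kernel -/
lemma Coh.mem_ker {n : (G → ℂ) → ℤ} (h0 : ∀ χ ∈ Irr G, 0 ≤ n χ)
    (hn : (theta n : G → ℂ) = C.dRep.character) (x : G) :
    x ∈ KerS (theta n : G → ℂ) ↔ C.dRep x = 1 := by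
  constructor
  · intro hx
    have h1 := theta_kerS (theta_virt n) 1 hx
    rw [one_mul, hn] at h1
    exact rep_triv C.dRep h1
  · intro hx
    apply mem_ker_of_eq h0
    rw [hn]
    change LinearMap.trace ℂ _ (C.dRep x) = LinearMap.trace ℂ _ (C.dRep 1)
    rw [hx, map_one C.dRep]

/-- subgroups of prime power order -/
theorem Coh.p_dvd {p : ℕ} (hp : p.Prime) (H : Subgroup G) (hH : IsPGroup p H) :
    ((p : ℤ) - 1) ∣ C.defect ⊥ - C.defect H := by
  classical
  have : Fintype H := Fintype.ofFinite H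
  have : Fact p.Prime := ⟨hp⟩
  have hS : IsSolHeilbronn C.dRep.character := (rep_heilbronn C.dRep).toSol
  have h1 : C.dRep.character 1 = ((finrank ℂ C.dsp : ℕ) : ℂ) := Representation.char_one _
  have hF : ∀ h : H, ∃ t : ℤ, C.dRep.character (h : G) = t := by
    intro h
    obtain ⟨K, hK⟩ := (IsPGroup.iff_orderOf.mp hH) h
    have hK' : orderOf (h : G) = p ^ K := by rw [Subgroup.orderOf_coe, hK]
    obtain ⟨t, ht, -, -⟩ := val_pp hS h1 C.d_pow' hp hK'
    exact ⟨t, ht⟩
  choose F hF using hF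
  have hpow : ∀ (g : H) (k : ℕ), k.Coprime (orderOf g) → F (g ^ k) = F g := by
    intro g k hk
    have h2 := C.d_pow' (g : G) k (by rw [Subgroup.orderOf_coe]; exact hk)
    have h3 := hF (g ^ k)
    rw [Subgroup.coe_pow, h2, hF g] at h3
    exact_mod_cast h3.symm
  obtain ⟨m, hm⟩ := pgroup_sum hp hH F hpow
  have h2 := rk_char C.dRep H
  rw [Finset.sum_congr rfl (fun h _ => hF h)] at h2
  have h3 : ∑ h : H, F h = (rk C.dRep H : ℤ) * Nat.card H := by exact_mod_cast h2
  have h4 : F 1 = rk C.dRep ⊥ := by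
    have h5 := hF 1
    rw [Subgroup.coe_one, h1] at h5
    rw [rk_bot]
    exact_mod_cast h5.symm
  obtain ⟨N, hN⟩ := IsPGroup.iff_card.mp hH
  have h5 : ((p : ℤ) - 1) ∣ (p : ℤ) ^ N - 1 := by
    have := sub_dvd_pow_sub_pow (p : ℤ) 1 N
    rwa [one_pow] at this
  obtain ⟨c, hc⟩ := h5
  rw [h3, h4, hN] at hm
  rw [C.defect_eq, C.defect_eq]
  refine ⟨rk C.dRep H * c - m, ?_⟩
  push_cast at hm
  linear_combination (-(1 : ℤ)) * hm + (rk C.dRep H : ℤ) * hc

end Pool.Agent.Q290.FF
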